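import Pool.Agent.N637.SLX.Stm4
import Pool.Agent.N637.SLX.Rad
import Pool.Agent.N916.GB.Tr
import Pool.Agent.N875.X15.Glob

/-!
# Project SLX: the criterion in terms of norms (helper383)
-/

set_option autoImplicit false

open scoped Classical

namespace Pool.Agent.N383.SLX

open Finset
open Pool.Agent.Y703.CQ (nr)
open Pool.Agent.N875.X15 (close even_val sq_cancel norm_lt_iff val_zero)

section loc

variable {p : ℕ} [hp : Fact p.Prime]

/-- norms from a ramified quadratic extension -/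
theorem nm_iff (hp2 : p ≠ 2) {a b : ℚ_[p]} (hb : Odd b.valuation) :
    (∃ x y : ℚ_[p], a = x ^ 2 - b * y ^ 2) ↔ (IsSquare a ∨ IsSquare (-(a * b))) := by
  have hb0 : b ≠ 0 := by
    rintro rfl
    rw [Padic.valuation_zero] at hb
    exact absurd hb (by decide)
  constructor
  · rintro ⟨x, y, rfl⟩
    by_cases hy : y = 0
    · left
      exact ⟨x, by rw [hy]; ring⟩
    by_cases hx : x = 0
    · right
      exact ⟨b * y, by rw [hx]; ring⟩
    have h1 : x ^ 2 ≠ 0 := pow_ne_zero 2 hx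
    have h2 : b * y ^ 2 ≠ 0 := mul_ne_zero hb0 (pow_ne_zero 2 hy)
    have v1 : Even (x ^ 2).valuation := even_val h1 ⟨x, by ring⟩
    have v2 : Odd (b * y ^ 2).valuation := by
      rw [Padic.valuation_mul hb0 (pow_ne_zero 2 hy)]
      exact hb.add_even (even_val (pow_ne_zero 2 hy) ⟨y, by ring⟩)
    rcases lt_trichotomy (x ^ 2).valuation (b * y ^ 2).valuation with h | h | h
    · left
      have h3 : ‖(x ^ 2 - b * y ^ 2) - x ^ 2‖ < ‖x ^ 2‖ := by
        rw [sub_sub_cancel_left, norm_neg]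
        exact (norm_lt_iff h2 h1).2 h
      have h4 := (close hp2 h1 h3).1
      rw [mul_comm] at h4
      exact sq_cancel h1 ⟨x, by ring⟩ h4
    · exfalso
      rw [h] at v1
      exact (Int.not_even_iff_odd.2 v2) v1
    · right
      have h5 : (b * y) ^ 2 ≠ 0 := pow_ne_zero 2 (mul_ne_zero hb0 hy)
      have h3 : ‖-((x ^ 2 - b * y ^ 2) * b) - (b * y) ^ 2‖ < ‖(b * y) ^ 2‖ := by
        have e1 : -((x ^ 2 - b * y ^ 2) * b) - (b * y) ^ 2 = -(b * x ^ 2) := by ring
        have e2 : (b * y) ^ 2 = b * (b * y ^ 2) := by ring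
        rw [e1, e2, norm_neg, norm_mul, norm_mul]
        exact mul_lt_mul_of_pos_left ((norm_lt_iff h1 h2).2 h) (norm_pos_iff.2 hb0)
      have h4 := (close hp2 h5 h3).1
      rw [mul_comm] at h4
      exact sq_cancel h5 ⟨b * y, by ring⟩ h4
  · rintro (⟨z, rfl⟩ | ⟨z, hz⟩)
    · exact ⟨z, 0, by ring⟩
    · refine ⟨0, z / b, ?_⟩
      field_simp
      linear_combination -hz

/-- squares among the units -/
theorem isSq_iff (hp2 : p ≠ 2) {u : ℤ} (hu : ¬ (p : ℤ) ∣ u) :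
    IsSquare (u : ℚ_[p]) ↔ IsSquare (u : ZMod p) := by
  constructor
  · rintro ⟨z, hz⟩
    have h1 : ‖z‖ ≤ 1 := by
      have h2 := Padic.norm_int_le_one (p := p) u
      rw [hz, norm_mul] at h2
      nlinarith [norm_nonneg z]
    obtain ⟨z', hz'⟩ : ∃ z' : ℤ_[p], (z' : ℚ_[p]) = z := ⟨⟨z, h1⟩, rfl⟩
    have h3 : (u : ℤ_[p]) = z' * z' := by
      apply Subtype.ext
      rw [PadicInt.coe_intCast, PadicInt.coe_mul, hz', hz]
    have h4 := congrArg PadicInt.toZMod h3
    rw [map_intCast, map_mul] at h4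
    exact ⟨_, h4⟩
  · rintro ⟨r, hr⟩
    have hk : (((r.val : ℕ) : ℤ) : ZMod p) = r := by
      rw [Int.cast_natCast, ZMod.natCast_zmod_val]
    obtain ⟨k, hk'⟩ : ∃ k : ℤ, (k : ZMod p) = r := ⟨_, hk⟩
    have h1 : (p : ℤ) ∣ u - k * k := by
      rw [← ZMod.intCast_zmod_eq_zero_iff_dvd]
      push_cast
      rw [hk', hr, sub_self]
    have h2 : ¬ (p : ℤ) ∣ k * k := by
      intro h
      apply hu
      have := dvd_add h1 h
      rwa [sub_add_cancel] at this
    have h3 : ‖((k * k : ℤ) : ℚ_[p])‖ = 1 := by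
      refine le_antisymm (Padic.norm_int_le_one _) ?_
      rw [← not_lt, Padic.norm_intCast_lt_one_iff]
      exact h2
    have h4 : ((k * k : ℤ) : ℚ_[p]) ≠ 0 := by
      intro h
      rw [h, norm_zero] at h3
      exact zero_ne_one h3
    have h5 : ‖(u : ℚ_[p]) - ((k * k : ℤ) : ℚ_[p])‖ < ‖((k * k : ℤ) : ℚ_[p])‖ := by
      rw [h3, ← Int.cast_sub, Padic.norm_intCast_lt_one_iff]
      exact h1
    have h6 := (close hp2 h4 h5).1
    rw [mul_comm] at h6
    exact sq_cancel h4 ⟨(k : ℚ_[p]), by push_cast; ring⟩ h6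

/-- the symbol for integers -/
noncomputable def nz (p : ℕ) (a : ℤ) : ZMod 2 := if IsSquare (a : ZMod p) then 0 else 1

theorem nr_nz (n : ℕ) : nr p n = nz p n := by
  unfold Pool.Agent.Y703.CQ.nr nz
  rw [Int.cast_natCast]

theorem nz_zero_iff (a : ℤ) : nz p a = 0 ↔ IsSquare (a : ZMod p) := by
  unfold nz
  split_ifs with h
  · exact ⟨fun _ => h, fun _ => rfl⟩
  · exact ⟨fun h' => absurd h' (by decide), fun h' => absurd h' h⟩

theorem nz_mul {a b : ℤ} (ha : ¬ (p : ℤ) ∣ a) (hb : ¬ (p : ℤ) ∣ b) :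
    nz p (a * b) = nz p a + nz p b := by
  have ha0 : (a : ZMod p) ≠ 0 := by rwa [Ne, ZMod.intCast_zmod_eq_zero_iff_dvd]
  have hb0 : (b : ZMod p) ≠ 0 := by rwa [Ne, ZMod.intCast_zmod_eq_zero_iff_dvd]
  have hab0 : ((a * b : ℤ) : ZMod p) ≠ 0 := by
    push_cast
    exact mul_ne_zero ha0 hb0
  have key : ∀ c : ℤ, (c : ZMod p) ≠ 0 →
      (nz p c = 0 ∧ legendreSym p c = 1) ∨ (nz p c = 1 ∧ legendreSym p c = -1) := by
    intro c hc
    unfold nz
    split_ifs with h
    · exact Or.inl ⟨rfl, (legendreSym.eq_one_iff p hc).2 h⟩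
    · exact Or.inr ⟨rfl, (legendreSym.eq_neg_one_iff p).2 h⟩
  have hm := legendreSym.mul p a b
  rcases key a ha0 with ⟨h1, h2⟩ | ⟨h1, h2⟩ <;> rcases key b hb0 with ⟨h3, h4⟩ | ⟨h3, h4⟩ <;>
    rcases key (a * b) hab0 with ⟨h5, h6⟩ | ⟨h5, h6⟩ <;> rw [h2, h4, h6] at hm <;>
    first
    | (exfalso; revert hm; norm_num; done)
    | (rw [h1, h3, h5]; decide)

theorem nz_prod (T : Finset ℕ) (hT : ∀ q ∈ T, ¬ (p : ℤ) ∣ (q : ℤ)) :
    ¬ (p : ℤ) ∣ ∏ q ∈ T, (q : ℤ) ∧ nz p (∏ q ∈ T, (q : ℤ)) = ∑ q ∈ T, nz p q := by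
  have hpp : Prime (p : ℤ) := Nat.prime_iff_prime_int.1 hp.out
  induction T using Finset.induction_on with
  | empty =>
    rw [prod_empty, sum_empty]
    refine ⟨?_, ?_⟩
    · intro h
      exact hpp.not_isUnit (isUnit_of_dvd_one h)
    · rw [nz_zero_iff]
      exact ⟨1, by norm_num⟩
  | insert a T ha ih =>
    obtain ⟨i1, i2⟩ := ih fun q hq => hT q (mem_insert_of_mem hq)
    have h1 := hT a (mem_insert_self a T)
    rw [prod_insert ha, sum_insert ha, nz_mul h1 i1, i2]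
    refine ⟨?_, rfl⟩
    intro h
    rcases hpp.dvd_or_dvd h with h | h
    · exact h1 h
    · exact i1 h

end loc

end Pool.Agent.N383.SLX

namespace Pool.Agent.N383.SLX

open Finset
open Pool.Agent.N916.GB (Po Vt sy z2 z2_add_self nr_recip)
open Pool.Agent.Y703.CQ (nr)
open Pool.Agent.N973.ND (uu)
open Pool.Agent.N637.SLX
open Pool.Agent.N875.X15 (even_val sq_cancel val_zero sq_of_mod8)

section glob

variable {t : Bool} {r s : ZMod 2} {S : Finset ℕ} {m : ℤ} {n : ℕ}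

lemma pr_vt (h : Ty t r s S m) {p : ℕ} (hp : p ∈ Vt t S) : p.Prime := by
  rcases mem_vt hp with rfl | hp'
  · exact Nat.prime_two
  · exact (h.po p hp').1

lemma sub_vt {p : ℕ} (hp : p ∈ S) : p ∈ Vt t S := by
  unfold Vt
  split_ifs
  · exact Finset.mem_insert_of_mem hp
  · exact hp

/-- `n` in terms of the primes -/
theorem n_eq (h : Ty t r s S m) (hn : (n : ℤ) = if t = true then -4 * m else -m) :
    (t = false ∧ n = ∏ q ∈ S, q) ∨ (t = true ∧ r = 0 ∧ n = 4 * ∏ q ∈ S, q) ∨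
      (t = true ∧ r = 1 ∧ n = 8 * ∏ q ∈ S, q) := by
  rcases h.ty with ⟨rfl, rfl, hm, hm4⟩ | ⟨rfl, rfl, rfl, hm, hm4⟩ | ⟨rfl, rfl, rfl, hm, hm4⟩ |
    ⟨rfl, rfl, rfl, hm, hm4⟩
  · left
    rw [if_neg (by decide)] at hn
    exact ⟨rfl, by omega⟩
  · right; left
    rw [if_pos rfl] at hn
    exact ⟨rfl, rfl, by omega⟩
  · right; right
    rw [if_pos rfl] at hn
    exact ⟨rfl, rfl, by omega⟩
  · right; right
    rw [if_pos rfl] at hn
    exact ⟨rfl, rfl, by omega⟩

lemma not_dvd_pr {p q : ℕ} (hp : p.Prime) (hq : q.Prime) (h : p ≠ q) : ¬ (p : ℤ) ∣ (q : ℤ) := by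
  intro h'
  exact h ((Nat.prime_dvd_prime_iff_eq hp hq).1 (by exact_mod_cast h'))

lemma sy_odd {p q : ℕ} (hq : q ≠ 2) : sy r s p q = nr q p := if_neg hq

lemma sy_two {p : ℕ} : sy r s p 2 = r * nr p 2 + s * uu p := if_pos rfl

lemma nr_self (p : ℕ) : nr p p = 0 := by
  unfold Pool.Agent.Y703.CQ.nr
  rw [if_pos]
  exact ⟨0, by simp⟩

/-- the sum of the symbols at `p` -/
theorem sum_sy (h : Ty t r s S m) (hn : (n : ℤ) = if t = true then -4 * m else -m) {p : ℕ}
    (hp : p ∈ S) : ∃ n' : ℕ, n = p * n' ∧ ¬ (p : ℤ) ∣ (n' : ℤ) ∧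
      nz p n' = ∑ q ∈ Vt t S, sy r s p q := by
  have hpo := h.po p hp
  have : Fact p.Prime := ⟨hpo.1⟩
  have hcc : ∀ x : ZMod 2, x + x = 0 := z2_add_self
  obtain ⟨P, hP⟩ : ∃ P : ℕ, P = ∏ q ∈ S.erase p, q := ⟨_, rfl⟩
  have hPS : ∏ q ∈ S, q = p * P := by
    rw [hP, Finset.mul_prod_erase S (fun q => q) hp]
  obtain ⟨k1, k2⟩ := nz_prod (p := p) (S.erase p) (fun q hq => by
    rw [mem_erase] at hq
    exact not_dvd_pr hpo.1 (h.po q hq.2).1 (Ne.symm hq.1))
  have hPc : ((P : ℕ) : ℤ) = ∏ q ∈ S.erase p, (q : ℤ) := by rw [hP]; push_cast; rfl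
  rw [← hPc] at k1 k2
  -- the sum over the odd primes
  have e1 : ∑ q ∈ S, sy r s p q = nz p P + uu p * ∑ q ∈ S.erase p, uu q := by
    have e2 : ∑ q ∈ S, sy r s p q = ∑ q ∈ S, nr q p :=
      sum_congr rfl fun q hq => sy_odd (h.po q hq).2
    rw [e2, ← Finset.add_sum_erase S (fun q => nr q p) hp, nr_self, zero_add, k2, mul_sum,
      ← sum_add_distrib]
    refine sum_congr rfl fun q hq => ?_
    rw [mem_erase] at hq
    have := nr_recip hpo (h.po q hq.2) (Ne.symm hq.1)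
    rw [← nr_nz, ← this, ← add_assoc, hcc, zero_add]
  have e3 := sum_uv h
  rw [sum_vt h.po] at e3
  have e4 : ∑ q ∈ S, uv s q = uu p + ∑ q ∈ S.erase p, uu q := by
    rw [Finset.add_sum_erase S uu hp]
    exact sum_congr rfl fun q hq => if_neg (h.po q hq).2
  have e5 : uv s 2 = s := if_pos rfl
  rw [e4, e5] at e3
  rw [sum_vt h.po, e1, sy_two]
  obtain ⟨U, hU⟩ : ∃ U : ZMod 2, U = ∑ q ∈ S.erase p, uu q := ⟨_, rfl⟩
  rw [← hU] at e3 ⊢
  have h2p : ¬ (p : ℤ) ∣ ((2 : ℕ) : ℤ) := not_dvd_pr hpo.1 Nat.prime_two hpo.2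
  have h2p' : ¬ (p : ℤ) ∣ 2 := by exact_mod_cast h2p
  have hpp : Prime (p : ℤ) := Nat.prime_iff_prime_int.1 hpo.1
  have h4p : ¬ (p : ℤ) ∣ 4 := by
    intro h4
    have : (4 : ℤ) = 2 * 2 := by norm_num
    rw [this] at h4
    rcases hpp.dvd_or_dvd h4 with h4 | h4 <;> exact h2p' h4
  have h8p : ¬ (p : ℤ) ∣ 8 := by
    intro h4
    have : (8 : ℤ) = 2 * 4 := by norm_num
    rw [this] at h4
    rcases hpp.dvd_or_dvd h4 with h4 | h4
    · exact h2p' h4
    · exact h4p h4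
  have n4 : nz p 4 = 0 := by
    rw [nz_zero_iff]
    exact ⟨2, by norm_num⟩
  have n8 : nz p 8 = nr p 2 := by
    have : (8 : ℤ) = 2 * 4 := by norm_num
    rw [this, nz_mul h2p' h4p, n4, add_zero, nr_nz]
    rfl
  rcases n_eq h hn with ⟨rfl, hn'⟩ | ⟨rfl, rfl, hn'⟩ | ⟨rfl, rfl, hn'⟩
  · refine ⟨P, by rw [hn', hPS], k1, ?_⟩
    rw [if_neg (by decide)] at e3 ⊢
    rw [zero_add] at e3 ⊢
    rcases z2 (uu p) with h0 | h0 <;> rcases z2 U with h1 | h1 <;> rw [h0, h1] at e3 ⊢ <;>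
      first
      | (exfalso; revert e3; decide)
      | simp
  · refine ⟨4 * P, by rw [hn', hPS]; ring, ?_, ?_⟩
    · push_cast
      intro h'
      rcases hpp.dvd_or_dvd h' with h' | h'
      · exact h4p h'
      · exact k1 h'
    · push_cast
      rw [nz_mul h4p k1, n4, zero_add, if_pos rfl, zero_mul, zero_add]
      rw [if_pos rfl] at e3
      generalize nz p P = X
      rcases z2 (uu p) with h0 | h0 <;> rcases z2 U with h1 | h1 <;> rcases z2 s with h3 | h3 <;>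
        rw [h0, h1, h3] at e3 ⊢ <;>
        first
        | (exfalso; revert e3; decide)
        | (rcases z2 X with h4 | h4 <;> rw [h4] <;> decide)
  · refine ⟨8 * P, by rw [hn', hPS]; ring, ?_, ?_⟩
    · push_cast
      intro h'
      rcases hpp.dvd_or_dvd h' with h' | h'
      · exact h8p h'
      · exact k1 h'
    · push_cast
      rw [nz_mul h8p k1, n8, if_pos rfl, one_mul]
      rw [if_pos rfl] at e3
      generalize nz p P = X
      generalize nr p 2 = Y
      rcases z2 (uu p) with h0 | h0 <;> rcases z2 U with h1 | h1 <;> rcases z2 s with h3 | h3 <;>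
        rw [h0, h1, h3] at e3 ⊢ <;>
        first
        | (exfalso; revert e3; decide)
        | (rcases z2 X with h4 | h4 <;> rcases z2 Y with h5 | h5 <;> rw [h4, h5] <;> decide)

/-- the valuation of `n` -/
lemma val_n {p : ℕ} [hp : Fact p.Prime] {n' : ℤ} (hn' : ¬ (p : ℤ) ∣ n') :
    Odd (((p : ℕ) : ℚ_[p]) * (n' : ℚ_[p])).valuation := by
  have h0 : (n' : ℚ_[p]) ≠ 0 := by
    have : n' ≠ 0 := by rintro rfl; simp at hn'
    exact_mod_cast this
  have hp0 : ((p : ℕ) : ℚ_[p]) ≠ 0 := by exact_mod_cast hp.out.ne_zero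
  rw [Padic.valuation_mul hp0 h0, Padic.valuation_p, val_zero hn', add_zero]
  exact odd_one

lemma not_sq_odd {p : ℕ} [hp : Fact p.Prime] {x : ℚ_[p]} (hx : Odd x.valuation) :
    ¬ IsSquare x := by
  intro h
  have hx0 : x ≠ 0 := by
    rintro rfl
    rw [Padic.valuation_zero] at hx
    exact absurd hx (by decide)
  exact Int.not_even_iff_odd.2 hx (even_val hx0 h)

/-- the norm condition at `p` as a linear equation -/
theorem loc_eq (h : Ty t r s S m) (hn : (n : ℤ) = if t = true then -4 * m else -m) {p : ℕ}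
    (hp : p ∈ S) (T : Finset ℕ) (hT : T ⊆ Vt t S) :
    Nm p ((∏ q ∈ T, q : ℕ) : ℤ) (-(n : ℤ)) ↔
      ∑ q ∈ T, nr p q + (if p ∈ T then ∑ q ∈ Vt t S, sy r s p q else 0) = 0 := by
  have hpo := h.po p hp
  have hpf : Fact p.Prime := ⟨hpo.1⟩
  have hpp : Prime (p : ℤ) := Nat.prime_iff_prime_int.1 hpo.1
  obtain ⟨n', hn1, hn2, hn3⟩ := sum_sy h hn hp
  have hn2' : ¬ (p : ℤ) ∣ -(n' : ℤ) := by rwa [dvd_neg]
  have eb : ((-(n : ℤ) : ℤ) : ℚ_[p]) = ((p : ℕ) : ℚ_[p]) * ((-(n' : ℤ) : ℤ) : ℚ_[p]) := by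
    rw [hn1]
    push_cast
    ring
  have hb : Odd (((-(n : ℤ) : ℤ) : ℚ_[p])).valuation := by
    rw [eb]
    exact val_n hn2'
  have hN : Nm p ((∏ q ∈ T, q : ℕ) : ℤ) (-(n : ℤ)) ↔
      IsSquare ((((∏ q ∈ T, q : ℕ) : ℤ)) : ℚ_[p]) ∨
      IsSquare (-(((((∏ q ∈ T, q : ℕ) : ℤ)) : ℚ_[p]) * ((-(n : ℤ) : ℤ) : ℚ_[p]))) := by
    rw [← nm_iff hpo.2 hb]
    exact ⟨fun h' => h', fun h' _ => h'⟩
  rw [hN]
  obtain ⟨k1, k2⟩ := nz_prod (p := p) (T.erase p) (fun q hq => by
    rw [mem_erase] at hq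
    exact not_dvd_pr hpo.1 (pr_vt h (hT hq.2)) (Ne.symm hq.1))
  by_cases hpT : p ∈ T
  · rw [if_pos hpT]
    obtain ⟨P, hP⟩ : ∃ P : ℤ, P = ∏ q ∈ T.erase p, (q : ℤ) := ⟨_, rfl⟩
    rw [← hP] at k1 k2
    have hPT : (((∏ q ∈ T, q : ℕ) : ℤ)) = p * P := by
      rw [hP, Finset.mul_prod_erase T (fun q => (q : ℤ)) hpT]
      push_cast
      rfl
    have e1 : ∑ q ∈ T, nr p q = nz p P := by
      rw [← Finset.add_sum_erase T (fun q => nr p q) hpT, nr_self, zero_add, k2]
      exact sum_congr rfl fun q _ => nr_nz q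
    rw [e1, ← hn3, hPT, ← nz_mul k1 hn2, nz_zero_iff]
    have hPn : ¬ (p : ℤ) ∣ P * n' := by
      intro h'
      rcases hpp.dvd_or_dvd h' with h' | h'
      · exact k1 h'
      · exact hn2 h'
    rw [← isSq_iff hpo.2 hPn]
    have e2 : (((p : ℤ) * P : ℤ) : ℚ_[p]) = ((p : ℕ) : ℚ_[p]) * (P : ℚ_[p]) := by
      push_cast
      rfl
    have hp0 : ((p : ℕ) : ℚ_[p]) ≠ 0 := by exact_mod_cast hpo.1.ne_zero
    constructor
    · rintro (h' | h')
      · exfalso
        rw [e2] at h'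
        exact not_sq_odd (val_n k1) h'
      · rw [e2, eb] at h'
        have e3 : -((((p : ℕ) : ℚ_[p]) * (P : ℚ_[p])) *
            (((p : ℕ) : ℚ_[p]) * ((-(n' : ℤ) : ℤ) : ℚ_[p]))) =
            (((p : ℕ) : ℚ_[p]) * ((p : ℕ) : ℚ_[p])) * ((P * n' : ℤ) : ℚ_[p]) := by
          push_cast
          ring
        rw [e3] at h'
        exact sq_cancel (mul_ne_zero hp0 hp0) ⟨_, rfl⟩ h'
    · intro h'
      right
      rw [e2, eb]
      have e3 : -((((p : ℕ) : ℚ_[p]) * (P : ℚ_[p])) *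
          (((p : ℕ) : ℚ_[p]) * ((-(n' : ℤ) : ℤ) : ℚ_[p]))) =
          (((p : ℕ) : ℚ_[p]) * ((p : ℕ) : ℚ_[p])) * ((P * n' : ℤ) : ℚ_[p]) := by
        push_cast
        ring
      rw [e3]
      exact IsSquare.mul ⟨_, rfl⟩ h'
  · rw [if_neg hpT, add_zero]
    rw [Finset.erase_eq_of_notMem hpT] at k1 k2
    have hPc : (((∏ q ∈ T, q : ℕ) : ℤ)) = ∏ q ∈ T, (q : ℤ) := by push_cast; rfl
    rw [← hPc] at k1 k2
    have e1 : ∑ q ∈ T, nr p q = nz p ((∏ q ∈ T, q : ℕ) : ℤ) := by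
      rw [k2]
      exact sum_congr rfl fun q _ => nr_nz q
    rw [e1, nz_zero_iff, ← isSq_iff hpo.2 k1]
    constructor
    · rintro (h' | h')
      · exact h'
      · exfalso
        refine not_sq_odd ?_ h'
        have e3 : -(((((∏ q ∈ T, q : ℕ) : ℤ)) : ℚ_[p]) * ((-(n : ℤ) : ℤ) : ℚ_[p])) =
            ((p : ℕ) : ℚ_[p]) * (((((∏ q ∈ T, q : ℕ) : ℤ)) * n' : ℤ) : ℚ_[p]) := by
          rw [eb]
          push_cast
          ring
        rw [e3]
        apply val_n
        intro h''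
        rcases hpp.dvd_or_dvd h'' with h'' | h''
        · exact k1 h''
        · exact hn2 h''
    · exact Or.inl

/-- the prime divisors of `n` -/
theorem dvd_n (h : Ty t r s S m) (hn : (n : ℤ) = if t = true then -4 * m else -m) (q : ℕ)
    (hq : q.Prime) : q ∣ n ↔ q ∈ Vt t S := by
  have hS : q ∣ ∏ p ∈ S, p ↔ q ∈ S := by
    constructor
    · intro h'
      obtain ⟨a, ha, hqa⟩ := (Prime.dvd_finsetProd_iff (Nat.prime_iff.1 hq) _).1 h'
      rwa [(Nat.prime_dvd_prime_iff_eq hq (h.po a ha).1).1 hqa]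
    · exact fun h' => Finset.dvd_prod_of_mem _ h'
  have h24 : q ∣ 4 ↔ q = 2 := by
    constructor
    · intro h'
      have : (4 : ℕ) = 2 ^ 2 := by norm_num
      rw [this] at h'
      exact (Nat.prime_dvd_prime_iff_eq hq Nat.prime_two).1 (hq.dvd_of_dvd_pow h')
    · rintro rfl; norm_num
  have h28 : q ∣ 8 ↔ q = 2 := by
    constructor
    · intro h'
      have : (8 : ℕ) = 2 ^ 3 := by norm_num
      rw [this] at h'
      exact (Nat.prime_dvd_prime_iff_eq hq Nat.prime_two).1 (hq.dvd_of_dvd_pow h')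
    · rintro rfl; norm_num
  rcases n_eq h hn with ⟨rfl, hn'⟩ | ⟨rfl, -, hn'⟩ | ⟨rfl, -, hn'⟩
  · rw [hn', hS]
    unfold Vt
    rw [if_neg (by decide)]
  · rw [hn', hq.dvd_mul, hS, h24]
    unfold Vt
    rw [if_pos rfl, mem_insert]
  · rw [hn', hq.dvd_mul, hS, h28]
    unfold Vt
    rw [if_pos rfl, mem_insert]

theorem n_ne (h : Ty t r s S m) (hn : (n : ℤ) = if t = true then -4 * m else -m) : n ≠ 0 := by
  have := h.cl.neg
  rintro rfl
  split_ifs at hn <;> push_cast at hn <;> omega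

theorem pf_n (h : Ty t r s S m) (hn : (n : ℤ) = if t = true then -4 * m else -m) :
    n.primeFactors = Vt t S := by
  ext q
  rw [Nat.mem_primeFactors]
  constructor
  · rintro ⟨h1, h2, -⟩
    exact (dvd_n h hn q h1).1 h2
  · intro h1
    have h2 := pr_vt h h1
    exact ⟨h2, (dvd_n h hn q h2).2 h1, n_ne h hn⟩

/-- the indicator of `T` -/
noncomputable def yT (t : Bool) (S T : Finset ℕ) (q : {x : ℕ // x ∈ Vt t S}) : ZMod 2 :=
  if q.1 ∈ T then 1 else 0

/-- the equation at `p` -/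
noncomputable def Ep (N : {x : ℕ // x ∈ Vt t S} → {x : ℕ // x ∈ Vt t S} → ZMod 2)
    (y : {x : ℕ // x ∈ Vt t S} → ZMod 2) (p : {x : ℕ // x ∈ Vt t S}) : ZMod 2 :=
  ∑ q, (y q * N q p + y p * N p q)

theorem Ep_sum (N : {x : ℕ // x ∈ Vt t S} → {x : ℕ // x ∈ Vt t S} → ZMod 2)
    (y : {x : ℕ // x ∈ Vt t S} → ZMod 2) : ∑ p, Ep N y p = 0 := by
  unfold Ep
  have e1 : ∀ p, ∑ q, (y q * N q p + y p * N p q) = ∑ q, y q * N q p + ∑ q, y p * N p q :=
    fun p => sum_add_distrib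
  rw [sum_congr rfl fun p _ => e1 p, sum_add_distrib, sum_comm, z2_add_self]

theorem lk_of (N : {x : ℕ // x ∈ Vt t S} → {x : ℕ // x ∈ Vt t S} → ZMod 2)
    (y : {x : ℕ // x ∈ Vt t S} → ZMod 2) (h : ∀ p, p.1 ≠ 2 → Ep N y p = 0) : IsLk N y := by
  intro p
  by_cases hp : p.1 = 2
  · have h1 := Ep_sum N y
    rw [sum_eq_single p] at h1
    · exact h1
    · intro q _ hq
      refine h q fun h2 => hq (Subtype.ext ?_)
      rw [h2, hp]
    · intro h2
      exact absurd (mem_univ p) h2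
  · exact h p hp

/-- the equation at an odd prime -/
theorem Ep_eq (h : Ty t r s S m) (T : Finset ℕ) (hT : T ⊆ Vt t S) (p : {x : ℕ // x ∈ Vt t S})
    (hp : p.1 ∈ S) : Ep (NS t r s S) (yT t S T) p =
      ∑ q ∈ T, nr p.1 q + (if p.1 ∈ T then ∑ q ∈ Vt t S, sy r s p.1 q else 0) := by
  unfold Ep
  rw [sum_add_distrib]
  congr 1
  · have e1 : ∀ q : {x : ℕ // x ∈ Vt t S}, yT t S T q * NS t r s S q p =
        (fun q : ℕ => if q ∈ T then nr p.1 q else 0) q.1 := by
      intro q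
      unfold yT
      show (if q.1 ∈ T then (1 : ZMod 2) else 0) * sy r s q.1 p.1 = if q.1 ∈ T then nr p.1 q.1 else 0
      rw [sy_odd (h.po p.1 hp).2]
      split_ifs
      · rw [one_mul]
      · rw [zero_mul]
    rw [sum_congr rfl fun q _ => e1 q,
      Finset.sum_coe_sort (Vt t S) (fun q : ℕ => if q ∈ T then nr p.1 q else 0),
      ← Finset.sum_filter]
    congr 1
    ext q
    rw [mem_filter]
    exact ⟨fun h' => h'.2, fun h' => ⟨hT h', h'⟩⟩
  · rw [← mul_sum]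
    have e2 : ∑ q : {x : ℕ // x ∈ Vt t S}, NS t r s S p q = ∑ q ∈ Vt t S, sy r s p.1 q :=
      Finset.sum_coe_sort (Vt t S) (sy r s p.1)
    rw [e2]
    unfold yT
    split_ifs
    · rw [one_mul]
    · rw [zero_mul]

/-- the translation of the left kernel -/
theorem dn_iff (h : Ty t r s S m) (hn : (n : ℤ) = if t = true then -4 * m else -m) {d : ℕ}
    (hd : Squarefree d) (hdn : d ∣ n) :
    Dn n d ↔ IsLk (NS t r s S) (yT t S d.primeFactors) := by
  have hT : d.primeFactors ⊆ Vt t S := by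
    rw [← pf_n h hn]
    exact Nat.primeFactors_mono hdn (n_ne h hn)
  have hprod : ∏ q ∈ d.primeFactors, q = d := Nat.prod_primeFactors_of_squarefree hd
  constructor
  · intro hD
    refine lk_of _ _ fun p hp2 => ?_
    have hpS : p.1 ∈ S := (mem_vt p.2).resolve_left hp2
    rw [Ep_eq h _ hT p hpS, ← loc_eq h hn hpS _ hT, hprod]
    have hpr := pr_vt h p.2
    intro hF
    exact hD.2.2 p.1 hpr hp2 ((dvd_n h hn p.1 hpr).2 p.2)
  · intro hL
    refine ⟨hd, hdn, fun p hp hp2 hpn => ?_⟩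
    have hpV := (dvd_n h hn p hp).1 hpn
    have hpS : p ∈ S := (mem_vt hpV).resolve_left hp2
    have h1 := hL ⟨p, hpV⟩
    have h2 := Ep_eq h _ hT ⟨p, hpV⟩ hpS
    have h3 : Ep (NS t r s S) (yT t S d.primeFactors) ⟨p, hpV⟩ = 0 := h1
    rw [h3] at h2
    intro hF
    have h4 := (loc_eq h hn hpS _ hT).2 h2.symm
    rwa [hprod] at h4

theorem sqf_prod (T : Finset ℕ) (hT : ∀ q ∈ T, q.Prime) : Squarefree (∏ q ∈ T, q) := by
  induction T using Finset.induction_on with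
  | empty => rw [prod_empty]; exact squarefree_one
  | insert a T ha ih =>
    rw [prod_insert ha, Nat.squarefree_mul]
    · exact ⟨(hT a (mem_insert_self a T)).squarefree, ih fun q hq => hT q (mem_insert_of_mem hq)⟩
    · refine Nat.Coprime.prod_right fun q hq => ?_
      rw [Nat.coprime_primes (hT a (mem_insert_self a T)) (hT q (mem_insert_of_mem hq))]
      rintro rfl
      exact ha hq

/-- all the functions come from divisors -/
theorem surj_y (h : Ty t r s S m) (hn : (n : ℤ) = if t = true then -4 * m else -m)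
    (y : {x : ℕ // x ∈ Vt t S} → ZMod 2) :
    ∃ d : ℕ, Squarefree d ∧ d ∣ n ∧ yT t S d.primeFactors = y := by
  obtain ⟨T, hT⟩ : ∃ T : Finset ℕ, T = (univ.filter fun q => y q = 1).image Subtype.val := ⟨_, rfl⟩
  have hTV : T ⊆ Vt t S := by
    intro q hq
    rw [hT, mem_image] at hq
    obtain ⟨a, -, rfl⟩ := hq
    exact a.2
  have hTp : ∀ q ∈ T, q.Prime := fun q hq => pr_vt h (hTV hq)
  have hpf : (∏ q ∈ T, q).primeFactors = T := Nat.primeFactors_prod hTp
  refine ⟨∏ q ∈ T, q, sqf_prod T hTp, ?_, ?_⟩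
  · refine dvd_trans (Finset.prod_dvd_prod_of_subset T n.primeFactors (fun q => q) ?_)
      (Nat.prod_primeFactors_dvd n)
    rwa [pf_n h hn]
  · rw [hpf]
    funext q
    unfold yT
    have hq : q.1 ∈ T ↔ y q = 1 := by
      rw [hT, mem_image]
      constructor
      · rintro ⟨a, ha, haq⟩
        have : a = q := Subtype.ext haq
        rw [← this]
        exact (mem_filter.1 ha).2
      · intro h1
        exact ⟨q, mem_filter.2 ⟨mem_univ _, h1⟩, rfl⟩
    by_cases hq1 : q.1 ∈ T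
    · rw [if_pos hq1, hq.1 hq1]
    · rw [if_neg hq1]
      rcases z2 (y q) with h0 | h0
      · exact h0.symm
      · exact absurd (hq.2 h0) hq1

/-- different divisors give different functions -/
theorem inj_y (h : Ty t r s S m) (hn : (n : ℤ) = if t = true then -4 * m else -m) {d d' : ℕ}
    (hd : Squarefree d) (hdn : d ∣ n) (hd' : Squarefree d') (hdn' : d' ∣ n)
    (he : yT t S d.primeFactors = yT t S d'.primeFactors) : d = d' := by
  have hT : d.primeFactors ⊆ Vt t S := by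
    rw [← pf_n h hn]
    exact Nat.primeFactors_mono hdn (n_ne h hn)
  have hT' : d'.primeFactors ⊆ Vt t S := by
    rw [← pf_n h hn]
    exact Nat.primeFactors_mono hdn' (n_ne h hn)
  have key : ∀ q (hq : q ∈ Vt t S), q ∈ d.primeFactors ↔ q ∈ d'.primeFactors := by
    intro q hq
    have h1 := congrFun he ⟨q, hq⟩
    unfold yT at h1
    by_cases h2 : q ∈ d.primeFactors <;> by_cases h3 : q ∈ d'.primeFactors
    · exact ⟨fun _ => h3, fun _ => h2⟩
    · rw [if_pos h2, if_neg h3] at h1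
      exact absurd h1 one_ne_zero
    · rw [if_neg h2, if_pos h3] at h1
      exact absurd h1.symm one_ne_zero
    · exact ⟨fun h' => absurd h' h2, fun h' => absurd h' h3⟩
  have hTT : d.primeFactors = d'.primeFactors := by
    ext q
    exact ⟨fun hq => (key q (hT hq)).1 hq, fun hq => (key q (hT' hq)).2 hq⟩
  rw [← Nat.prod_primeFactors_of_squarefree hd, ← Nat.prod_primeFactors_of_squarefree hd', hTT]

lemma nz_neg_one {p : ℕ} [hp : Fact p.Prime] : nz p (-1) = uu p := by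
  have h1 := ZMod.exists_sq_eq_neg_one_iff (p := p)
  unfold nz Pool.Agent.N973.ND.uu
  have e : ((-1 : ℤ) : ZMod p) = -1 := by push_cast; rfl
  rw [e]
  by_cases h3 : p % 4 = 3
  · rw [if_pos h3, if_neg]
    intro h'
    exact (h1.1 h') h3
  · rw [if_neg h3, if_pos (h1.2 h3)]

/-- the labels -/
theorem ep_eq (h : Ty t r s S m) (hn : (n : ℤ) = if t = true then -4 * m else -m) {p : ℕ}
    (hp : p ∈ Vt t S) : ep n p = eS t r s S p := by
  rcases mem_vt hp with rfl | hpS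
  · rw [eS_of_ne (by norm_num), nr7, if_pos (by norm_num)]
    unfold ep
    rw [if_pos]
    intro _
    have h1 : PadicInt.toZModPow 3 ((-7 : ℤ) : ℤ_[2]) = 1 := by
      rw [map_intCast]
      decide
    obtain ⟨z, hz⟩ := sq_of_mod8 _ h1
    refine ⟨z, 0, ?_⟩
    rw [PadicInt.coe_intCast] at hz
    rw [hz]
    ring
  · have hpo := h.po p hpS
    have hpf : Fact p.Prime := ⟨hpo.1⟩
    have hpp : Prime (p : ℤ) := Nat.prime_iff_prime_int.1 hpo.1
    obtain ⟨n', hn1, hn2, hn3⟩ := sum_sy h hn hpS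
    have eb : (((n : ℤ) : ℤ) : ℚ_[p]) = ((p : ℕ) : ℚ_[p]) * (((n' : ℤ) : ℤ) : ℚ_[p]) := by
      rw [hn1]
      push_cast
      ring
    have hb : Odd ((((n : ℤ) : ℤ) : ℚ_[p])).valuation := by
      rw [eb]
      exact val_n hn2
    have hN : Nm p (-7) (n : ℤ) ↔ IsSquare (((-7 : ℤ)) : ℚ_[p]) ∨
        IsSquare (-((((-7 : ℤ)) : ℚ_[p]) * ((n : ℤ) : ℚ_[p]))) := by
      rw [← nm_iff hpo.2 hb]
      exact ⟨fun h' => h', fun h' _ => h'⟩
    by_cases h7 : p = 7
    · subst h7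
      have hp0 : ((7 : ℕ) : ℚ_[7]) ≠ 0 := by norm_num
      have hN' : Nm 7 (-7) (n : ℤ) ↔ nz 7 n' = 0 := by
        rw [hN, nz_zero_iff, ← isSq_iff (by norm_num) hn2]
        have e1 : (((-7 : ℤ)) : ℚ_[7]) = ((7 : ℕ) : ℚ_[7]) * (((-1 : ℤ)) : ℚ_[7]) := by
          push_cast
          ring
        have e2 : -((((-7 : ℤ)) : ℚ_[7]) * ((n : ℤ) : ℚ_[7])) =
            (((7 : ℕ) : ℚ_[7]) * ((7 : ℕ) : ℚ_[7])) * ((n' : ℤ) : ℚ_[7]) := by
          rw [eb]
          push_cast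
          ring
        constructor
        · rintro (h' | h')
          · exfalso
            rw [e1] at h'
            exact not_sq_odd (val_n (by norm_num)) h'
          · rw [e2] at h'
            exact sq_cancel (mul_ne_zero hp0 hp0) ⟨_, rfl⟩ h'
        · intro h'
          right
          rw [e2]
          exact IsSquare.mul ⟨_, rfl⟩ h'
      have e3 : eS t r s S 7 = nz 7 n' := by
        unfold eS
        rw [if_pos rfl, hn3, ← Finset.add_sum_erase (Vt t S) (sy r s 7) hp,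
          sy_odd (by norm_num), nr_self, zero_add]
      rw [e3]
      unfold ep
      simp only [hN']
      rcases z2 (nz 7 n') with h0 | h0 <;> simp [h0]
    · have h7p : ¬ (p : ℤ) ∣ 7 := by
        have := not_dvd_pr hpo.1 (by norm_num : Nat.Prime 7) h7
        exact_mod_cast this
      have h1p : ¬ (p : ℤ) ∣ -1 := by
        rw [dvd_neg]
        intro h'
        exact hpp.not_isUnit (isUnit_of_dvd_one h')
      have h77 : ¬ (p : ℤ) ∣ -7 := by rwa [dvd_neg]
      have hN' : Nm p (-7) (n : ℤ) ↔ nz p (-7) = 0 := by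
        rw [hN, nz_zero_iff, ← isSq_iff hpo.2 h77]
        constructor
        · rintro (h' | h')
          · exact h'
          · exfalso
            have e2 : -((((-7 : ℤ)) : ℚ_[p]) * ((n : ℤ) : ℚ_[p])) =
                ((p : ℕ) : ℚ_[p]) * ((7 * n' : ℤ) : ℚ_[p]) := by
              rw [eb]
              push_cast
              ring
            rw [e2] at h'
            refine not_sq_odd (val_n ?_) h'
            intro h''
            rcases hpp.dvd_or_dvd h'' with h'' | h''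
            · exact h7p h''
            · exact hn2 h''
        · exact Or.inl
      have e3 : nz p (-7) = nr 7 p := by
        have e4 : (-7 : ℤ) = -1 * 7 := by norm_num
        have e5 := nr_recip hpo (⟨by norm_num, by norm_num⟩ : Po 7) h7
        have e6 : uu 7 = 1 := if_pos (by norm_num)
        have e7 : nz p 7 = nr p 7 := by rw [nr_nz]; rfl
        rw [e6, mul_one] at e5
        rw [e4, nz_mul h1p h7p, nz_neg_one, e7, ← e5, add_comm, ← add_assoc, z2_add_self, zero_add]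
      rw [eS_of_ne h7, ← e3]
      unfold ep
      simp only [hN']
      rcases z2 (nz p (-7)) with h0 | h0 <;> simp [h0]

/-- the form -/
theorem fm_eq (h : Ty t r s S m) (hn : (n : ℤ) = if t = true then -4 * m else -m) {d d' : ℕ}
    (hd : Squarefree d) (hdn : d ∣ n) (hd' : Squarefree d') (hdn' : d' ∣ n) :
    fm n d d' = Bf (ES t r s S) (yT t S d.primeFactors) (yT t S d'.primeFactors) := by
  have hT : d.primeFactors ⊆ Vt t S := by
    rw [← pf_n h hn]
    exact Nat.primeFactors_mono hdn (n_ne h hn)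
  have hT' : d'.primeFactors ⊆ Vt t S := by
    rw [← pf_n h hn]
    exact Nat.primeFactors_mono hdn' (n_ne h hn)
  have key : ∀ T : Finset ℕ, T ⊆ Vt t S → ∀ y : {x : ℕ // x ∈ Vt t S} → ZMod 2,
      (∀ q, y q = if q.1 ∈ T then 1 else 0) → ∑ p ∈ T, ep n p = ∑ p, ES t r s S p * y p := by
    intro T hT y hy
    have e1 : ∀ q : {x : ℕ // x ∈ Vt t S}, ES t r s S q * y q =
        (fun q : ℕ => if q ∈ T then eS t r s S q else 0) q.1 := by
      intro q
      rw [hy]
      show eS t r s S q.1 * (if q.1 ∈ T then (1 : ZMod 2) else 0) =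
        if q.1 ∈ T then eS t r s S q.1 else 0
      split_ifs
      · rw [mul_one]
      · rw [mul_zero]
    rw [sum_congr rfl fun q _ => e1 q,
      Finset.sum_coe_sort (Vt t S) (fun q : ℕ => if q ∈ T then eS t r s S q else 0),
      ← Finset.sum_filter]
    have e2 : (Vt t S).filter (fun q => q ∈ T) = T := by
      ext q
      rw [mem_filter]
      exact ⟨fun h' => h'.2, fun h' => ⟨hT h', h'⟩⟩
    rw [e2]
    exact sum_congr rfl fun q hq => ep_eq h hn (hT hq)
  unfold fm Bf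
  rw [key _ hT (yT t S d.primeFactors) (fun q => rfl),
    key _ hT' (yT t S d'.primeFactors) (fun q => rfl),
    Nat.primeFactors_gcd hd.ne_zero hd'.ne_zero,
    key (d.primeFactors ∩ d'.primeFactors) (fun q hq => hT (mem_inter.1 hq).1)
      (fun q => yT t S d.primeFactors q * yT t S d'.primeFactors q) (fun q => by
        unfold yT
        by_cases h1 : q.1 ∈ d.primeFactors <;> by_cases h2 : q.1 ∈ d'.primeFactors <;>
          simp [h1, h2])]
  congr 1
  exact sum_congr rfl fun q _ => by rw [mul_assoc]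

theorem card_gen (h : Ty t r s S m) (hn : (n : ℤ) = if t = true then -4 * m else -m)
    (A : ℕ → Prop) (B : ({x : ℕ // x ∈ Vt t S} → ZMod 2) → Prop)
    (hA : ∀ d, A d → Squarefree d ∧ d ∣ n)
    (hAB : ∀ d, Squarefree d → d ∣ n → (A d ↔ B (yT t S d.primeFactors))) :
    Nat.card {d : ℕ // A d} = Nat.card {y : {x : ℕ // x ∈ Vt t S} → ZMod 2 // B y} := by
  refine Nat.card_congr (Equiv.ofBijective (fun d : {d : ℕ // A d} =>
    (⟨yT t S d.1.primeFactors, (hAB d.1 (hA d.1 d.2).1 (hA d.1 d.2).2).1 d.2⟩ :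
      {y : {x : ℕ // x ∈ Vt t S} → ZMod 2 // B y})) ⟨?_, ?_⟩)
  · intro d d' he
    have he' := congrArg Subtype.val he
    obtain ⟨a1, a2⟩ := hA d.1 d.2
    obtain ⟨b1, b2⟩ := hA d'.1 d'.2
    exact Subtype.ext (inj_y h hn a1 a2 b1 b2 he')
  · rintro ⟨y, hy⟩
    obtain ⟨d, hd, hdn, rfl⟩ := surj_y h hn y
    exact ⟨⟨d, (hAB d hd hdn).2 hy⟩, rfl⟩

end glob

theorem t_HIL : S_HIL := by
  intro t r s S m n h hn
  constructor
  · exact card_gen h hn (Dn n) (IsLk (NS t r s S)) (fun d hd => ⟨hd.1, hd.2.1⟩)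
      (fun d hd hdn => dn_iff h hn hd hdn)
  · refine card_gen h hn (Rn n) (IsRad (NS t r s S) (ES t r s S)) (fun d hd => ⟨hd.1.1, hd.1.2.1⟩)
      (fun d hd hdn => ?_)
    constructor
    · rintro ⟨h1, h2⟩
      refine ⟨(dn_iff h hn hd hdn).1 h1, fun z hz => ?_⟩
      obtain ⟨d', hd', hdn', rfl⟩ := surj_y h hn z
      rw [← fm_eq h hn hd hdn hd' hdn']
      exact h2 d' ((dn_iff h hn hd' hdn').2 hz)
    · rintro ⟨h1, h2⟩
      refine ⟨(dn_iff h hn hd hdn).2 h1, fun d' hd' => ?_⟩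
      rw [fm_eq h hn hd hdn hd'.1 hd'.2.1]
      exact h2 _ ((dn_iff h hn hd'.1 hd'.2.1).1 hd')

end Pool.Agent.N383.SLX
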